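import Pool.Agent.helper44.EX.Spec

/-!
# SPK: the lemma of Schwarz and Pick (project ex:)
-/

set_option autoImplicit false

open Complex Metric Set Filter Topology MeasureTheory Pool.Agent.helper98.ILF

noncomputable section

namespace EX

/-- SPK: the lemma of Schwarz and Pick. -/
theorem SPK (hMOB : MOB_stmt) (_hRHO : RHO_stmt) : SPK_stmt := by
  intro θ hθ hm
  have hneg : ∀ a ∈ ball (0 : ℂ) 1, -a ∈ ball (0 : ℂ) 1 := by
    intro a ha
    rw [mem_ball_zero_iff] at ha ⊢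
    rwa [norm_neg]
  have h00 : (0 : ℂ) ∈ ball (0 : ℂ) 1 := mem_ball_self one_pos
  refine ⟨?_, ?_⟩
  · intro z hz w hw
    obtain ⟨-, hd1, hm1, -, h01, -, hinv1, hr1, -⟩ := hMOB z hz
    obtain ⟨-, hd2, hm2, -, -, -, -, -, -⟩ := hMOB (-z) (hneg z hz)
    have hθz := hm hz
    obtain ⟨-, -, -, -, -, -, -, hr3, -⟩ := hMOB (θ z) hθz
    obtain ⟨-, hd4, hm4, -, -, hz4, -, -, -⟩ := hMOB (-(θ z)) (hneg _ hθz)
    rw [neg_neg] at hz4
    have hηd : DifferentiableOn ℂ (fun u => tau (-(θ z)) (θ (tau z u))) (ball 0 1) :=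
      hd4.comp (hθ.comp hd1 hm1) (hm.comp hm1)
    have hηm : MapsTo (fun u => tau (-(θ z)) (θ (tau z u))) (ball 0 1) (closedBall 0 1) := by
      intro u hu
      exact ball_subset_closedBall (hm4 (hm (hm1 hu)))
    have hη0 : (fun u => tau (-(θ z)) (θ (tau z u))) 0 = 0 := by
      show tau (-(θ z)) (θ (tau z 0)) = 0
      rw [h01]
      exact hz4
    have hu : tau (-z) w ∈ ball (0 : ℂ) 1 := hm2 hw
    have h1 := Complex.norm_le_norm_of_mapsTo_ball hηd hηm hη0 (mem_ball_zero_iff.mp hu)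
    have h2 : tau z (tau (-z) w) = w := (hinv1 w hw).2
    simp only [h2] at h1
    rw [hr3 (θ w) (hm hw), hr1 w hw] at h1
    exact h1
  · have ha := hm h00
    set a := θ 0 with hadef
    obtain ⟨hden, hd4, hm4, -, -, hz4, -, -, -⟩ := hMOB (-a) (hneg _ ha)
    rw [neg_neg] at hz4
    have hηd : DifferentiableOn ℂ (fun u => tau (-a) (θ u)) (ball 0 1) := hd4.comp hθ hm
    have hηm : MapsTo (fun u => tau (-a) (θ u)) (ball 0 1) (closedBall (tau (-a) (θ 0)) 1) := by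
      intro u hu
      show tau (-a) (θ u) ∈ closedBall (tau (-a) (θ 0)) 1
      rw [← hadef, hz4]
      exact ball_subset_closedBall (hm4 (hm hu))
    have h1 := Complex.norm_deriv_le_one_of_mapsTo_ball hηd hηm one_pos
    have hθ0 : HasDerivAt θ (deriv θ 0) 0 :=
      (hθ.differentiableAt (isOpen_ball.mem_nhds h00)).hasDerivAt
    have hnorm : ‖a‖ < 1 := mem_ball_zero_iff.mp ha
    have hpos : 0 < 1 - ‖a‖ ^ 2 := by nlinarith [norm_nonneg a]
    have hca : (starRingEnd ℂ) (-a) * a = -((‖a‖ ^ 2 : ℝ) : ℂ) := by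
      rw [map_neg, neg_mul, Complex.conj_mul']
      push_cast
      ring
    have hden1 : 1 + (starRingEnd ℂ) (-a) * a = ((1 - ‖a‖ ^ 2 : ℝ) : ℂ) := by
      rw [hca]
      push_cast
      ring
    have hC : ((1 - ‖a‖ ^ 2 : ℝ) : ℂ) ≠ 0 := by exact_mod_cast hpos.ne'
    have htau : HasDerivAt (tau (-a)) (1 / ((1 - ‖a‖ ^ 2 : ℝ) : ℂ)) a := by
      have e1 : HasDerivAt (fun z : ℂ => z + -a) 1 a := (hasDerivAt_id a).add_const _
      have e2 : HasDerivAt (fun z : ℂ => 1 + (starRingEnd ℂ) (-a) * z)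
          ((starRingEnd ℂ) (-a) * 1) a := ((hasDerivAt_id a).const_mul _).const_add _
      have e3 := e1.div e2 (by rw [hden1]; exact hC)
      refine e3.congr_deriv ?_
      rw [hden1]
      rw [div_eq_div_iff (pow_ne_zero 2 hC) hC]
      ring
    have hcomp : HasDerivAt (fun u => tau (-a) (θ u)) (1 / ((1 - ‖a‖ ^ 2 : ℝ) : ℂ) * deriv θ 0) 0 := by
      have htau' : HasDerivAt (tau (-a)) (1 / ((1 - ‖a‖ ^ 2 : ℝ) : ℂ)) (θ 0) := htau
      exact htau'.comp 0 hθ0
    rw [hcomp.deriv, norm_mul, norm_div, norm_one, Complex.norm_real, Real.norm_of_nonneg hpos.le,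
      one_div, inv_mul_le_iff₀ hpos, mul_one] at h1
    exact h1

end EX
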